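import Pool.Agent.helper71.CL.Spec

set_option autoImplicit false

open MeasureTheory Set Filter Topology
open scoped ENNReal
open Pool.Agent.helper81.CW

noncomputable section

namespace Pool.Agent.CL

theorem PRJ : PRJ_stmt := by
  intro d e
  refine ⟨?_, ?_, ?_, ?_, ?_, ?_⟩
  · intro x y
    constructor
    · ext i
      simp [p1, gl]
    · ext i
      simp [p2, gl]
  · intro x
    constructor
    · ext i
      refine Fin.addCases (fun i => ?_) (fun i => ?_) i
      · simp [p1, gl]
      · simp [p2, gl]
    · rw [EuclideanSpace.norm_sq_eq, EuclideanSpace.norm_sq_eq, EuclideanSpace.norm_sq_eq,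
        Fin.sum_univ_add]
      rfl
  · intro x y
    constructor
    · ext i
      simp [p1]
    · ext i
      simp [p2]
  · unfold p1
    refine (PiLp.continuous_toLp 2 _).comp ?_
    exact continuous_pi fun i => (PiLp.continuous_apply 2 _ _)
  · unfold p2
    refine (PiLp.continuous_toLp 2 _).comp ?_
    exact continuous_pi fun i => (PiLp.continuous_apply 2 _ _)
  · unfold gl
    refine (PiLp.continuous_toLp 2 _).comp ?_
    refine continuous_pi fun i => ?_
    refine Fin.addCases (fun i => ?_) (fun i => ?_) i
    · simp only [Fin.append_left]
      exact (PiLp.continuous_apply 2 _ _).comp continuous_fst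
    · simp only [Fin.append_right]
      exact (PiLp.continuous_apply 2 _ _).comp continuous_snd

end Pool.Agent.CL
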