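import Pool.Agent.helper41.CL.Spec

set_option autoImplicit false

namespace Pool.Agent.helper41.CL

open Finset

theorem SD : SD_stmt := by
  intro α _ V E hE
  have h1 : ∀ x ∈ V, #(inc E x) = ∑ e ∈ E, if x ∈ e then 1 else 0 := by
    intro x _
    unfold inc
    rw [card_filter]
  rw [sum_congr rfl h1, sum_comm]
  have h2 : ∀ e ∈ E, (∑ x ∈ V, if x ∈ e then 1 else 0) = 2 := by
    intro e he
    rw [← card_filter]
    have h3 : V.filter (fun x => x ∈ e) = e := by
      ext x
      rw [mem_filter]
      exact ⟨fun h => h.2, fun h => ⟨(hE e he).1 h, h⟩⟩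
    rw [h3]
    exact (hE e he).2
  rw [sum_congr rfl h2, sum_const, smul_eq_mul, mul_comm]

end Pool.Agent.helper41.CL
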